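import Pool.Agent.NL.Final

/-!
MP_e1729b_nt: almost all bases `x` of the Nagell-Ljunggren equation have no solution.
-/

namespace Pool.Agent.Results.MP_e1729b_nt.AlmostAllBases

/-- The bases `x` of the solutions of `y ^ m = 1 + x + ... + x ^ (n - 1)` with `x, y, m > 1`, `n > 2`
have natural density zero. -/
theorem result : Filter.Tendsto
    (fun N : ℕ => ((({x : ℕ | 1 < x ∧ x ≤ N ∧ ∃ y m n : ℕ, 1 < y ∧ 1 < m ∧ 2 < n ∧
      y ^ m = ∑ i ∈ Finset.range n, x ^ i}).ncard : ℕ) : ℝ) / (N : ℝ)) Filter.atTop (nhds 0) := by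
  rw [Metric.tendsto_atTop]
  intro ε hε
  obtain ⟨N₀, hN⟩ := Pool.Agent.NL.almost_all (ε / 2) (by positivity)
  refine ⟨max N₀ 1, fun N h => ?_⟩
  have h1 := hN N ((le_max_left _ _).trans h)
  have hN1 : 1 ≤ N := (le_max_right _ _).trans h
  have hNr : (0 : ℝ) < N := by exact_mod_cast hN1
  have e : {x : ℕ | 1 < x ∧ x ≤ N ∧ ∃ y m n : ℕ, 1 < y ∧ 1 < m ∧ 2 < n ∧
      y ^ m = ∑ i ∈ Finset.range n, x ^ i} =
      {x | ∃ y m n : ℕ, 1 < x ∧ 1 < y ∧ 1 < m ∧ 2 < n ∧ y ^ m = Pool.Agent.NL.rep x n} ∩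
        Set.Icc 1 N := by
    ext x
    constructor
    · rintro ⟨hx, hxN, y, m, n, hy, hm, hn, h⟩
      exact ⟨⟨y, m, n, hx, hy, hm, hn, h⟩, by omega, hxN⟩
    · rintro ⟨⟨y, m, n, hx, hy, hm, hn, h⟩, _, hxN⟩
      exact ⟨hx, hxN, y, m, n, hy, hm, hn, h⟩
  rw [Real.dist_eq, sub_zero, abs_of_nonneg (by positivity), div_lt_iff₀ hNr, e]
  unfold Pool.Agent.NL.cnt at h1
  have : ε / 2 * (N : ℝ) < ε * N := by nlinarith
  linarith

end Pool.Agent.Results.MP_e1729b_nt.AlmostAllBases
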