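import Pool.Agent.NLF.FInt

/-!
MP_e1729b_nt: for all but finitely many `(x, m)` the Nagell-Ljunggren equation has at most one solution.
-/

namespace Pool.Agent.Results.MP_e1729b_nt.AtMostOne

/-- There are only finitely many `(x, (y₁, m₁, n₁), (y₂, m₂, n₂))` with `x, y₁, y₂ > 1`,
`gcd (m₁, m₂) > 1`, `1 < n₁ < n₂` and `yᵢ ^ mᵢ (x - 1) = x ^ nᵢ - 1` for `i = 1, 2`. -/
theorem result : {t : ℤ × (ℤ × ℕ × ℕ) × (ℤ × ℕ × ℕ) | 1 < t.1 ∧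
    1 < t.2.1.1 ∧ 1 < t.2.2.1 ∧ 1 < Nat.gcd t.2.1.2.1 t.2.2.2.1 ∧
    1 < t.2.1.2.2 ∧ t.2.1.2.2 < t.2.2.2.2 ∧
    t.2.1.1 ^ t.2.1.2.1 * (t.1 - 1) = t.1 ^ t.2.1.2.2 - 1 ∧
    t.2.2.1 ^ t.2.2.2.1 * (t.1 - 1) = t.1 ^ t.2.2.2.2 - 1}.Finite :=
  Pool.Agent.NLF.at_most_one_int

end Pool.Agent.Results.MP_e1729b_nt.AtMostOne
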