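import Pool.Agent.NLE.EInt
import Pool.Agent.NLK.Final

/-!
MP_e1729b_nt: the Nagell-Ljunggren equation has only finitely many solutions of composite length.
-/

namespace Pool.Agent.Results.MP_e1729b_nt.CompositeLengths

/-- The equation `y ^ m (x - 1) = x ^ n - 1` has only finitely many solutions with `n` composite. -/
theorem result :
    {t : ℤ × ℤ × ℕ × ℕ | 1 < t.1 ∧ 1 < t.2.1 ∧ 1 < t.2.2.1 ∧ 2 < t.2.2.2 ∧ ¬ t.2.2.2.Prime ∧
      t.2.1 ^ t.2.2.1 * (t.1 - 1) = t.1 ^ t.2.2.2 - 1}.Finite :=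
  Pool.Agent.NLE.comp_finite_int Pool.Agent.NLK.cube_bounded

end Pool.Agent.Results.MP_e1729b_nt.CompositeLengths
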