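import Pool.Agent.NLS.DpBox

/-!
MP_e1729b_nt: the exponents of the solutions of the Nagell-Ljunggren equation are bounded by a power of the length.
-/

namespace Pool.Agent.Results.MP_e1729b_nt.ExponentBound

/-- For every `ε > 0` there is `n0` such that for all `n ≥ n0`: if `P` is a finite set of pairwise coprime integers `m > 1` and `x m > 1`
is for each of them the base of a solution of `y ^ m (x - 1) = x ^ n - 1`, `y > 1`, then the product of the numbers
`m min (1, max (m, log (x m)) / n)` is at most `n ^ (1/2 + |P| ε)`. So every exponent `m` is smaller than `n ^ (3/4 + ε)`, the product of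
the elements of `P` is smaller than `n ^ (1/4 + |P| (1/2 + ε))`, and `m log x ≤ n ^ (3/2 + ε)` if `m > n ^ (1/2 + ε)`. -/
theorem result (ε : ℝ) (hε : 0 < ε) : ∃ n0 : ℕ, ∀ n : ℕ, n0 ≤ n → ∀ P : Finset ℕ,
    (∀ a ∈ P, ∀ b ∈ P, a ≠ b → a.Coprime b) → ∀ x : ℕ → ℕ,
    (∀ m ∈ P, 1 < m ∧ 1 < x m ∧ ∃ y : ℕ, 1 < y ∧ y ^ m * (x m - 1) = x m ^ n - 1) →
    ∏ m ∈ P, ((m : ℝ) * min 1 (max (m : ℝ) (Real.log (x m)) / n)) ≤ (n : ℝ) ^ (1 / 2 + (P.card : ℝ) * ε) :=
  Pool.Agent.NLS.box_all ε hε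

end Pool.Agent.Results.MP_e1729b_nt.ExponentBound
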